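import Pool.Agent.H85.SA.Snd

/-! # [H80 SA Sn0] SOUNDNESS of the certificates of type 0

The curve has no real point at infinity. `t = x + c y`, `X = (Z + 1)^(3 Z + 4)`. If `|t| > X`, the equation of the certificate
at `(t, y)` is `p(ψ) (m t^s)^e = R(t, y)`, so that `|t|^(s e) ≤ Z |R(t, y)| ≤ Z (Z + 1)^2 Z (Z (Z + 1)^2 |t|)^(deg R)` with
`deg R < s e`, `deg R ≤ Z`: `|t| ≤ X`. -/

namespace Pool.Agent.H80.SA

open Pool.Agent.H98.AL Pool.Agent.H77.SF Pool.Agent.H85.SA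

/-- the value of a polynomial -/
private theorem val_bd {R : P2} {Z : ℕ} (hd : R.totalDegree ≤ Z)
    (hR : ∀ t, |MvPolynomial.coeff t R| ≤ (Z : ℤ)) {t y K : ℤ} (hK : 1 ≤ K) (ht : |t| ≤ K) (hy : |y| ≤ K) :
    |vl R t y| ≤ (Z + 1) ^ 2 * (Z * K ^ R.totalDegree) := by
  classical
  have hK0 : 0 ≤ K := by linarith
  have hdeg : ∀ u ∈ R.support, u 0 + u 1 ≤ R.totalDegree := by
    intro u hu
    have h1 := MvPolynomial.le_totalDegree hu
    have h2 : (u.sum fun _ e => e) = u 0 + u 1 := by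
      rw [Finsupp.sum_fintype _ _ (fun _ => rfl), Fin.sum_univ_two]
    omega
  rw [vl_sum]
  have hterm : ∀ u ∈ R.support, |((MvPolynomial.coeff u R : ℤ) : ℤ) * (t ^ u 0 * y ^ u 1)| ≤
      Z * K ^ R.totalDegree := by
    intro u hu
    rw [abs_mul, abs_mul, abs_pow, abs_pow]
    refine mul_le_mul (hR u) ?_ (by positivity) (by positivity)
    calc |t| ^ u 0 * |y| ^ u 1 ≤ K ^ u 0 * K ^ u 1 :=
          mul_le_mul (pow_le_pow_left₀ (abs_nonneg _) ht _) (pow_le_pow_left₀ (abs_nonneg _) hy _)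
            (by positivity) (by positivity)
      _ = K ^ (u 0 + u 1) := by rw [pow_add]
      _ ≤ K ^ R.totalDegree := pow_le_pow_right₀ hK (hdeg u hu)
  have hcard : (R.support.card : ℤ) ≤ (Z + 1) ^ 2 := by
    have h1 : R.support.card ≤ ((Finset.range (Z + 1)) ×ˢ (Finset.range (Z + 1))).card := by
      refine Finset.card_le_card_of_injOn (fun u => (u 0, u 1)) ?_ ?_
      · intro u hu
        have h2 := hdeg u hu
        rw [Finset.mem_coe, Finset.mem_product, Finset.mem_range, Finset.mem_range]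
        constructor
        · show u 0 < Z + 1
          omega
        · show u 1 < Z + 1
          omega
      · intro u _ v _ huv
        have h2 : u 0 = v 0 := congrArg Prod.fst huv
        have h3 : u 1 = v 1 := congrArg Prod.snd huv
        ext i
        fin_cases i
        · exact h2
        · exact h3
    rw [Finset.card_product, Finset.card_range] at h1
    have h2 : (R.support.card : ℤ) ≤ (((Z + 1) * (Z + 1) : ℕ) : ℤ) := by exact_mod_cast h1
    push_cast at h2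
    linarith
  refine (Finset.abs_sum_le_sum_abs _ _).trans ?_
  refine (Finset.sum_le_card_nsmul _ _ _ hterm).trans ?_
  rw [nsmul_eq_mul]
  exact mul_le_mul_of_nonneg_right hcard (by positivity)

/-- **SOUNDNESS (type 0)** -/
theorem sound0 {F : P2} {Z : ℕ} (h : Cer0 F Z) {x y : ℤ} (h0 : MvPolynomial.eval ![x, y] F = 0) :
    max |x| |y| ≤ (Phi Z : ℤ) := by
  obtain ⟨p, c, s, e, m, N, Q, R, hcert, hp, hc, hs, he, hm, hpZ, hd, hG, hRd, hR⟩ := h
  have hZ : 1 ≤ Z := by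
    by_contra h1
    have h2 : Z = 0 := by omega
    have h3 := hp 0
    rw [h2, Nat.cast_zero, zero_mul] at h3
    linarith
  have h0' := vl_shf_int c h0
  obtain ⟨t, ht⟩ : ∃ t : ℤ, t = x + c * y := ⟨_, rfl⟩
  have hX1 : 1 ≤ (Z + 1) ^ (3 * Z + 4) := Nat.one_le_pow _ _ (by omega)
  by_cases hcs : |x + c * y| ≤ (((Z + 1) ^ (3 * Z + 4) : ℕ) : ℤ)
  · refine (xy_bd hZ hc hd hcert.lc hG h0' hX1 hcs).trans ?_
    unfold Phi
    have h1 : (Z + 1) ^ (3 * Z + 4) ≤ TT Z ^ (6 * E0 Z Z Z Z * Z + 5 * Z + 2) := by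
      have h2 : (Z + 1) ^ (3 * Z + 4) ≤ (TT Z) ^ (5 * Z + 2) := by
        unfold TT
        rw [← pow_mul]
        calc (Z + 1) ^ (3 * Z + 4) ≤ (Z + 1) ^ ((Z + 3) * (5 * Z + 2)) :=
              Nat.pow_le_pow_right (by omega) (by nlinarith)
          _ ≤ (2 * Z + 2) ^ ((Z + 3) * (5 * Z + 2)) := Nat.pow_le_pow_left (by omega) _
      exact h2.trans (Nat.pow_le_pow_right (TT_pos Z) (by omega))
    exact_mod_cast Nat.mul_le_mul_left _ h1
  exfalso
  push Not at hcs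
  rw [← ht] at hcs h0'
  have hXi : (1 : ℤ) ≤ (((Z + 1) ^ (3 * Z + 4) : ℕ) : ℤ) := by exact_mod_cast hX1
  have ht1 : 1 ≤ |t| := by linarith
  have ht0 : t ≠ 0 := by
    intro h1
    rw [h1, abs_zero] at ht1
    omega
  have hZ' : (1 : ℤ) ≤ Z := by exact_mod_cast hZ
  -- the coordinate `y`
  have hy := y_bd hZ hd hcert.lc hG h0' ht1 le_rfl
  obtain ⟨K, hK⟩ : ∃ K : ℤ, K = Z * (Z + 1) ^ 2 * |t| := ⟨_, rfl⟩
  have hk1 : (1 : ℤ) ≤ Z * (Z + 1) ^ 2 := by
    have h1 : (1 : ℤ) ≤ (Z + 1 : ℤ) ^ 2 := one_le_pow₀ (by linarith)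
    nlinarith
  have htK : |t| ≤ K := by
    rw [hK]
    exact le_mul_of_one_le_left (by linarith) hk1
  have hK1 : 1 ≤ K := ht1.trans htK
  rw [← hK] at hy
  have hRb := val_bd hRd hR hK1 htK hy
  -- the equation
  have heq := congrArg (fun A : P2 => vl A (t : ℝ) (y : ℝ)) hcert.eq
  simp only [vl_hm, vl_mul, vl_add, vl_C, vl_pow, vl_X0, one_mul] at heq
  have hRr : ∀ A : P2, vl A (t : ℝ) (y : ℝ) = ((vl A t y : ℤ) : ℝ) := fun A => by
    have := vl_map (Int.castRingHom ℝ) A t y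
    simpa using this.symm
  rw [hRr (shf c F), h0', Int.cast_zero, zero_mul, zero_add] at heq
  have htr : (t : ℝ) ≠ 0 := by exact_mod_cast ht0
  have hm0 : ((m : ℤ) : ℝ) ≠ 0 := by
    have := hcert.m1
    have h1 : m ≠ 0 := by omega
    exact_mod_cast h1
  have hB : ((m : ℤ) : ℝ) * (t : ℝ) ^ s ≠ 0 := mul_ne_zero hm0 (pow_ne_zero _ htr)
  have hde : p.natDegree ≤ e := by
    have h1 := hcert.de
    rwa [one_mul] at h1
  rw [hm_val p hde _ _ hB] at heq
  have hmain : |(t : ℝ)| ^ (s * e) ≤ Z * |vl R (t : ℝ) (y : ℝ)| := by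
    rw [← heq, abs_mul]
    have h1 := hp (vl N (t : ℝ) (y : ℝ) / (((m : ℤ) : ℝ) * (t : ℝ) ^ s))
    have h2 : |(t : ℝ)| ^ (s * e) ≤ |(((m : ℤ) : ℝ) * (t : ℝ) ^ s) ^ e| := by
      rw [abs_pow, abs_mul, abs_pow, pow_mul]
      refine pow_le_pow_left₀ (by positivity) ?_ _
      refine le_mul_of_one_le_left (by positivity) ?_
      have h3 : (1 : ℝ) ≤ ((m : ℤ) : ℝ) := by exact_mod_cast hcert.m1
      exact h3.trans (le_abs_self _)
    rw [← mul_assoc]
    exact h2.trans (le_mul_of_one_le_left (abs_nonneg _) h1)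
  have hint : |t| ^ (s * e) ≤ Z * |vl R t y| := by
    rw [hRr] at hmain
    have h1 : (((|t| ^ (s * e) : ℤ)) : ℝ) ≤ ((Z * |vl R t y| : ℤ) : ℝ) := by
      push_cast
      exact hmain
    exact_mod_cast h1
  have htr' := hcert.tr
  obtain ⟨n, hn⟩ : ∃ n, s * e = n + 1 := Nat.exists_eq_succ_of_ne_zero (by omega)
  have hdn : R.totalDegree ≤ n := by omega
  obtain ⟨k, hk⟩ : ∃ k : ℤ, k = Z * (Z + 1) ^ 2 := ⟨_, rfl⟩
  rw [← hk] at hK hk1
  have hKp : K ^ R.totalDegree ≤ k ^ Z * |t| ^ n := by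
    rw [hK, mul_pow]
    exact mul_le_mul (pow_le_pow_right₀ hk1 hRd) (pow_le_pow_right₀ ht1 hdn) (by positivity) (by positivity)
  rw [hn, pow_succ] at hint
  have hfin : |t| ^ n * |t| ≤ |t| ^ n * (Z * ((Z + 1) ^ 2 * (Z * k ^ Z))) := by
    refine hint.trans ?_
    calc (Z : ℤ) * |vl R t y| ≤ Z * ((Z + 1) ^ 2 * (Z * (k ^ Z * |t| ^ n))) := by
          refine mul_le_mul_of_nonneg_left (hRb.trans ?_) (by positivity)
          refine mul_le_mul_of_nonneg_left ?_ (by positivity)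
          exact mul_le_mul_of_nonneg_left hKp (by positivity)
      _ = |t| ^ n * (Z * ((Z + 1) ^ 2 * (Z * k ^ Z))) := by ring
  have hfin2 : |t| ≤ Z * ((Z + 1) ^ 2 * (Z * k ^ Z)) :=
    le_of_mul_le_mul_left hfin (pow_pos (by linarith) _)
  have hkz : k ≤ (Z + 1) ^ 3 := by
    rw [hk]
    have h1 : (0 : ℤ) ≤ (Z + 1) ^ 2 := by positivity
    nlinarith
  have hlast : (Z : ℤ) * ((Z + 1) ^ 2 * (Z * k ^ Z)) ≤ (Z + 1) ^ (3 * Z + 4) := by
    have h1 : k ^ Z ≤ ((Z : ℤ) + 1) ^ (3 * Z) := by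
      rw [pow_mul]
      exact pow_le_pow_left₀ (by linarith) hkz _
    have h2 : (Z : ℤ) * Z ≤ (Z + 1) ^ 2 := by nlinarith
    have h3 : (Z : ℤ) * ((Z + 1) ^ 2 * (Z * k ^ Z)) = ((Z : ℤ) * Z) * ((Z : ℤ) + 1) ^ 2 * k ^ Z := by ring
    have h4 : ((Z : ℤ) + 1) ^ (3 * Z + 4) = ((Z : ℤ) + 1) ^ 2 * ((Z : ℤ) + 1) ^ 2 * ((Z : ℤ) + 1) ^ (3 * Z) := by
      rw [← pow_add, ← pow_add]
      congr 1
      omega
    rw [h3, h4]
    refine mul_le_mul ?_ h1 (pow_nonneg (by linarith) _) (by positivity)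
    exact mul_le_mul_of_nonneg_right h2 (by positivity)
  push_cast at hcs
  linarith

end Pool.Agent.H80.SA
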